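import Pool.Agent.H27.G.R_pool_sql_team_seeded_63374d34.N879.PZ.Stm
import Pool.Agent.H27.G.R_seed8.Y587.GP.V
import Pool.Agent.H27.G.R_seed8.Y587.GP.Chi
import Pool.Agent.H27.G.R_seed8.Y891.GP.AFE
import Pool.Agent.H27.G.R_seed8.Y545.GP.CR

set_option autoImplicit false

/-!
Project PZ (helper879), task AFX (helper402): `|ζ|²` as a Dirichlet polynomial.
-/

namespace Pool.Agent.N879.PZ

/-- AFX -/
theorem t_AFX : S_AFX := by
  have hV := Pool.Agent.Y587.GP.t_V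
  have hAFE := Pool.Agent.Y891.GP.t_AFE hV Pool.Agent.Y587.GP.Chi.t_CHI
  have hCR := Pool.Agent.Y545.GP.t_CR hV
  obtain ⟨C, hC, h⟩ := hAFE (1 / 4) (by norm_num)
  refine ⟨C, hC, fun u X hu hX => ?_⟩
  have h0 : u ^ (1 + 1 / 4 : ℝ) ≤ X := by
    refine (Real.rpow_le_rpow_of_exponent_le hu (by norm_num : (1 + 1 / 4 : ℝ) ≤ 2)).trans ?_
    rw [Real.rpow_two]
    exact hX
  have h1 := h u X hu h0
  rw [hCR.1 X u, show (-(1 / 2) + 1 / 4 : ℝ) = -(1 / 4) by norm_num] at h1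
  exact h1

end Pool.Agent.N879.PZ
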