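import Pool.Agent.H27.G.R_pool_sql_team_seeded_63374d34.N879.PZ.Stm
import Pool.Agent.H27.G.R_seed8.Y587.GP.V
import Pool.Agent.H27.G.R_seed8.Y545.GP.CR

/-!
Project PZ (helper879), part CRD (helper40): size of the coefficients, with decay.
-/

set_option autoImplicit false

namespace Pool.Agent.N879.PZ

open Complex Filter Topology MeasureTheory Set
open Pool.Agent.Y969.GP (V V1 ht co cr)

namespace Crdaux

open Pool.Agent.Y545.GP (ht_pos harm D1 has1)

/-- sums over the multiples -/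
lemma sum_bound {X : ℕ} {p : ℕ × ℕ} (f : ℕ × ℕ → ℝ) (K : ℝ) (hK : 0 ≤ K)
    (h1 : 1 ≤ p.1) (h2 : 1 ≤ p.2)
    (hf : ∀ q : ℕ × ℕ, 1 ≤ q.1 → 1 ≤ q.2 → ht p ≤ ht q → |f q| ≤ K * (√(ht q))⁻¹) :
    |∑ g ∈ (Finset.Icc 1 X).filter (fun g => g * g * (p.1 * p.2) ≤ X), f (g * p.1, g * p.2)| ≤
      K * (1 + Real.log X) * (√(ht p))⁻¹ := by
  have hp := ht_pos h1 h2
  calc |∑ g ∈ (Finset.Icc 1 X).filter (fun g => g * g * (p.1 * p.2) ≤ X), f (g * p.1, g * p.2)|
      ≤ ∑ g ∈ (Finset.Icc 1 X).filter (fun g => g * g * (p.1 * p.2) ≤ X),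
          |f (g * p.1, g * p.2)| := Finset.abs_sum_le_sum_abs _ _
    _ ≤ ∑ g ∈ (Finset.Icc 1 X).filter (fun g => g * g * (p.1 * p.2) ≤ X),
          K * (√(ht p))⁻¹ * (g : ℝ)⁻¹ := by
        apply Finset.sum_le_sum
        intro g hg
        have hg1 : 1 ≤ g := (Finset.mem_Icc.1 (Finset.mem_filter.1 hg).1).1
        have hg2 : (1 : ℝ) ≤ g := by exact_mod_cast hg1
        have hh : ht (g * p.1, g * p.2) = (g : ℝ) ^ 2 * ht p := by
          simp only [ht]
          push_cast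
          ring
        refine (hf (g * p.1, g * p.2) (Nat.mul_pos hg1 h1) (Nat.mul_pos hg1 h2) ?_).trans
          (le_of_eq ?_)
        · rw [hh]
          exact le_mul_of_one_le_left hp.le (one_le_pow₀ hg2)
        · rw [hh, Real.sqrt_mul (by positivity), Real.sqrt_sq (by positivity), mul_inv]
          ring
    _ ≤ ∑ g ∈ Finset.Icc 1 X, K * (√(ht p))⁻¹ * (g : ℝ)⁻¹ := by
        apply Finset.sum_le_sum_of_subset_of_nonneg (Finset.filter_subset _ _)
        intro g _ _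
        positivity
    _ = K * (√(ht p))⁻¹ * ∑ g ∈ Finset.Icc 1 X, (g : ℝ)⁻¹ := by rw [Finset.mul_sum]
    _ ≤ K * (√(ht p))⁻¹ * (1 + Real.log X) := by
        apply mul_le_mul_of_nonneg_left (harm X)
        positivity
    _ = K * (1 + Real.log X) * (√(ht p))⁻¹ := by ring

lemma pw {a b u : ℝ} (ha : 0 < a) (hab : a ≤ b) (hu : 0 < u) :
    ((2 * Real.pi * b / u) ^ 2)⁻¹ ≤ (u / a) ^ 2 := by
  have hb : 0 < b := ha.trans_le hab
  have hpi := Real.pi_gt_three
  rw [← inv_pow, inv_div]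
  apply pow_le_pow_left₀ (by positivity)
  apply div_le_div_of_nonneg_left hu.le ha
  nlinarith

lemma mn {y C C₂ s t : ℝ} (hC : 0 ≤ C) (hC₂ : 0 ≤ C₂) (h1 : y ≤ C) (h2 : y ≤ C₂ * s)
    (hs : 0 ≤ s) (hst : s ≤ t) : y ≤ (C + C₂) * min 1 t := by
  rw [mul_min_of_nonneg _ _ (by positivity)]
  have h3 : C₂ * s ≤ C₂ * t := mul_le_mul_of_nonneg_left hst hC₂
  have h4 : 0 ≤ C * t := mul_nonneg hC (hs.trans hst)
  refine le_min (by linarith) ?_
  rw [add_mul]
  linarith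

lemma v1b {x : ℝ} (hx : 0 < x) : |x * V1 x| ≤ Real.exp 4 * (x ^ 2)⁻¹ := by
  have e : x * V1 x = -((2 * √Real.pi)⁻¹ * Real.exp (-(Real.log x) ^ 2 / 4)) := by
    unfold V1
    field_simp
  have h0 : (0 : ℝ) ≤ (2 * √Real.pi)⁻¹ := by positivity
  rw [e, abs_neg, abs_of_nonneg (by positivity)]
  have h1 := Pool.Agent.Y587.GP.c0_inv_le
  have h2 : Real.exp (-(Real.log x) ^ 2 / 4) ≤ Real.exp 4 * (x ^ 2)⁻¹ := by
    have h3 : Real.exp (2 * Real.log x) = x ^ 2 := by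
      rw [two_mul, Real.exp_add, Real.exp_log hx]
      ring
    rw [← h3, ← Real.exp_neg, ← Real.exp_add]
    apply Real.exp_le_exp.2
    nlinarith [sq_nonneg (Real.log x / 2 - 2)]
  have h4 := Real.exp_pos (-(Real.log x) ^ 2 / 4)
  have h5 : (2 * √Real.pi)⁻¹ * Real.exp (-(Real.log x) ^ 2 / 4) ≤
      1 * Real.exp (-(Real.log x) ^ 2 / 4) := mul_le_mul_of_nonneg_right h1 h4.le
  linarith

end Crdaux

open Crdaux in
theorem t_CRD : S_CRD := by
  have h := Pool.Agent.Y587.GP.t_V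
  obtain ⟨C, hC, hCb⟩ := h.2.2.2.1
  obtain ⟨C₂, hC₂, hV2⟩ := h.2.2.2.2.2.1 2 (by norm_num)
  refine ⟨2 * (1 + C₂) + 2 * (C + Real.exp 4), by positivity, ?_⟩
  intro X p u hX h1 h2 hu
  have hp := Pool.Agent.Y545.GP.ht_pos h1 h2
  have hl : 0 ≤ 1 + Real.log X := by
    have := Real.log_natCast_nonneg X
    linarith
  have hm : 0 ≤ min 1 ((u / ht p) ^ 2) := le_min zero_le_one (by positivity)
  have hs : 0 ≤ (√(ht p))⁻¹ := by positivity
  have hfin : ∀ K y : ℝ, 0 ≤ K → K ≤ 2 * (1 + C₂) + 2 * (C + Real.exp 4) →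
      y ≤ K * min 1 ((u / ht p) ^ 2) * (1 + Real.log X) * (√(ht p))⁻¹ →
      y ≤ (2 * (1 + C₂) + 2 * (C + Real.exp 4)) * (1 + Real.log X) * (√(ht p))⁻¹ *
        min 1 ((u / ht p) ^ 2) := by
    intro K y _ hK hy
    refine hy.trans ?_
    calc K * min 1 ((u / ht p) ^ 2) * (1 + Real.log X) * (√(ht p))⁻¹
        = K * ((1 + Real.log X) * (√(ht p))⁻¹ * min 1 ((u / ht p) ^ 2)) := by ring
      _ ≤ (2 * (1 + C₂) + 2 * (C + Real.exp 4)) *
          ((1 + Real.log X) * (√(ht p))⁻¹ * min 1 ((u / ht p) ^ 2)) :=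
          mul_le_mul_of_nonneg_right hK (mul_nonneg (mul_nonneg hl hs) hm)
      _ = _ := by ring
  constructor
  · refine hfin (2 * (1 + C₂)) _ (by positivity) (by
      have := Real.exp_pos 4
      linarith) ?_
    refine sum_bound (X := X) (p := p) (fun q => co q u) (2 * (1 + C₂) * min 1 ((u / ht p) ^ 2))
      (by positivity) h1 h2 ?_
    intro q hq1 hq2 hpq
    have hq := Pool.Agent.Y545.GP.ht_pos hq1 hq2
    have hx : 0 < 2 * Real.pi * ht q / u := by positivity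
    obtain ⟨v1, v2⟩ := h.1 _ hx
    have v3 := hV2 _ hx
    rw [Real.rpow_neg hx.le, Real.rpow_two] at v3
    have hb := mn (C := 1) (C₂ := C₂) zero_le_one hC₂.le v2 v3 (by positivity) (pw hp hpq hu)
    simp only [co]
    rw [abs_of_nonneg (by positivity)]
    calc 2 * (√(ht q))⁻¹ * V (2 * Real.pi * ht q / u)
        ≤ 2 * (√(ht q))⁻¹ * ((1 + C₂) * min 1 ((u / ht p) ^ 2)) :=
          mul_le_mul_of_nonneg_left hb (by positivity)
      _ = 2 * (1 + C₂) * min 1 ((u / ht p) ^ 2) * (√(ht q))⁻¹ := by ring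
  · have hd : HasDerivAt (cr X p) (∑ g ∈ (Finset.Icc 1 X).filter (fun g => g * g * (p.1 * p.2) ≤ X),
        Pool.Agent.Y545.GP.D1 (g * p.1, g * p.2) u) u := by
      have := HasDerivAt.fun_sum (u := (Finset.Icc 1 X).filter (fun g => g * g * (p.1 * p.2) ≤ X))
        (A := fun g => co (g * p.1, g * p.2))
        (A' := fun g => Pool.Agent.Y545.GP.D1 (g * p.1, g * p.2) u) (x := u) (fun g hg => by
          have hg1 : 1 ≤ g := (Finset.mem_Icc.1 (Finset.mem_filter.1 hg).1).1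
          exact Pool.Agent.Y545.GP.has1 h
            (Pool.Agent.Y545.GP.ht_pos (q := (g * p.1, g * p.2)) (Nat.mul_pos hg1 h1)
              (Nat.mul_pos hg1 h2)) hu)
      exact this
    rw [hd.deriv, Finset.mul_sum]
    refine hfin (2 * (C + Real.exp 4)) _ (by positivity) (by linarith) ?_
    refine sum_bound (X := X) (p := p) (fun q => u * Pool.Agent.Y545.GP.D1 q u)
      (2 * (C + Real.exp 4) * min 1 ((u / ht p) ^ 2)) (by positivity) h1 h2 ?_
    intro q hq1 hq2 hpq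
    have hq := Pool.Agent.Y545.GP.ht_pos hq1 hq2
    have hx : 0 < 2 * Real.pi * ht q / u := by positivity
    obtain ⟨v1, _⟩ := hCb _ hx
    have hb := mn (C := C) (C₂ := Real.exp 4) hC.le (Real.exp_pos 4).le v1 (v1b hx)
      (by positivity) (pw hp hpq hu)
    have e : u * Pool.Agent.Y545.GP.D1 q u = -(2 * (√(ht q))⁻¹) *
        (2 * Real.pi * ht q / u * V1 (2 * Real.pi * ht q / u)) := by
      simp only [Pool.Agent.Y545.GP.D1]
      field_simp
    rw [e, abs_mul, abs_neg, abs_of_nonneg (by positivity : (0:ℝ) ≤ 2 * (√(ht q))⁻¹)]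
    calc 2 * (√(ht q))⁻¹ * |2 * Real.pi * ht q / u * V1 (2 * Real.pi * ht q / u)|
        ≤ 2 * (√(ht q))⁻¹ * ((C + Real.exp 4) * min 1 ((u / ht p) ^ 2)) :=
          mul_le_mul_of_nonneg_left hb (by positivity)
      _ = 2 * (C + Real.exp 4) * min 1 ((u / ht p) ^ 2) * (√(ht q))⁻¹ := by ring

end Pool.Agent.N879.PZ
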