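import Pool.Agent.H27.G.R_pool_sql_team_seeded_63374d34.N879.PZ.Stm

set_option autoImplicit false

/-!
Project PZ: replacement of the factors of a product, one at a time, continuous version.
-/

namespace Pool.Agent.N879.PZ

open Complex Filter Topology MeasureTheory Set
open Pool.Agent.Y969.GP (mB)
open scoped ENNReal

noncomputable section

namespace Telcaux

instance sfB (n : ℕ) (U : ℝ) : SigmaFinite (mB n 0 U) := by
  unfold mB
  infer_instance

lemma mor {X : Type} [MeasurableSpace X] {h : X → ℝ} (hc : Measurable h) :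
    Measurable fun x => ENNReal.ofReal (h x) :=
  ENNReal.measurable_ofReal.comp hc

/-- the first variable -/
lemma lint_prod {n : ℕ} (U : ℝ) (F : (Fin (n + 1) → ℝ) → ℝ≥0∞) (hF : Measurable F) :
    ∫⁻ γ, F γ ∂(mB (n + 1) 0 U) =
      ∫⁻ p : ℝ × (Fin n → ℝ), F (Fin.cons p.1 p.2)
        ∂((volume.restrict (Icc 0 U)).prod (mB n 0 U)) := by
  have hmp := (measurePreserving_piFinSuccAbove
    (fun _ : Fin (n + 1) => (volume.restrict (Icc 0 U) : Measure ℝ)) 0).symm
  have h1 := hmp.lintegral_comp hF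
  unfold mB
  rw [← h1]
  refine lintegral_congr fun p => ?_
  congr 1
  exact (Fin.insertNth_zero' p.1 p.2 : _)

lemma lint1 {A B : ℝ} (hAB : A ≤ B) {h : ℝ → ℝ} (hi : IntegrableOn h (Icc A B)) (h0 : ∀ y, 0 ≤ h y) :
    ∫⁻ y, ENNReal.ofReal (h y) ∂(volume.restrict (Icc A B)) =
      ENNReal.ofReal (∫ y in A..B, h y) := by
  rw [intervalIntegral.integral_of_le hAB, ← integral_Icc_eq_integral_Ioc,
    ofReal_integral_eq_lintegral_ofReal hi (Filter.Eventually.of_forall h0)]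

/-- parametric integrals are measurable -/
lemma meas_int {X : Type} [MeasurableSpace X] {μ : Measure ℝ} [SFinite μ] {F : X → ℝ → ℂ}
    (hF : Measurable (Function.uncurry F)) : Measurable fun x => ∫ t, F x t ∂μ :=
  (hF.stronglyMeasurable.integral_prod_right).measurable

lemma wb_mul {a b : ℝ} {v φ : ℝ → ℂ} (hv : Wb a b v) (hφ : Continuous φ) :
    Wb a b (fun t => v t * φ t) := by
  obtain ⟨hm, M, hM⟩ := hv
  obtain ⟨C, hC⟩ := isCompact_Icc.exists_bound_of_continuousOn (s := Icc a b) hφ.continuousOn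
  refine ⟨hm.mul hφ.measurable, M * C, fun t ht => ?_⟩
  rw [norm_mul]
  exact mul_le_mul (hM t ht) (hC t ht) (norm_nonneg _) ((norm_nonneg _).trans (hM t ht))

lemma wb_int {a b : ℝ} {v : ℝ → ℂ} (hv : Wb a b v) : Integrable v (volume.restrict (Icc a b)) := by
  obtain ⟨hm, M, hM⟩ := hv
  refine Integrable.mono' (g := fun _ => M) (integrable_const _) hm.aestronglyMeasurable ?_
  exact (ae_restrict_mem measurableSet_Icc).mono fun t ht => hM t ht

lemma wb_int2 {a b : ℝ} {v : ℝ → ℂ} (hv : Wb a b v) :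
    IntegrableOn (fun t => ‖v t‖ ^ 2) (Icc a b) := by
  obtain ⟨hm, M, hM⟩ := hv
  refine Integrable.mono' (g := fun _ => M ^ 2) (integrable_const _)
    (hm.norm.pow_const 2).aestronglyMeasurable ?_
  refine (ae_restrict_mem measurableSet_Icc).mono fun t ht => ?_
  rw [Real.norm_of_nonneg (by positivity)]
  exact pow_le_pow_left₀ (norm_nonneg _) (hM t ht) 2

/-- the product of the second moments -/
lemma pmom {U V : ℝ} (hV0 : 0 ≤ V) {φ : ℝ → ℂ} (hφ : Continuous φ)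
    (h : ∫⁻ y, ENNReal.ofReal (‖φ y‖ ^ 2) ∂(volume.restrict (Icc 0 U)) ≤ ENNReal.ofReal V) :
    ∀ n : ℕ, ∫⁻ γ, ENNReal.ofReal (‖∏ i, φ (γ i)‖ ^ 2) ∂(mB n 0 U) ≤ ENNReal.ofReal (V ^ n) := by
  intro n
  induction n with
  | zero => simp [mB, Measure.pi_empty_univ]
  | succ n ih =>
    have hc : Continuous fun γ : Fin (n + 1) → ℝ => ‖∏ i, φ (γ i)‖ ^ 2 := by fun_prop
    rw [lint_prod U _ (mor hc.measurable)]
    have hcc : Continuous fun p : ℝ × (Fin n → ℝ) => (Fin.cons p.1 p.2 : Fin (n + 1) → ℝ) :=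
      Continuous.finCons (A := fun _ => ℝ) continuous_fst continuous_snd
    have hcomp : Continuous fun p : ℝ × (Fin n → ℝ) =>
        ‖∏ i, φ ((Fin.cons p.1 p.2 : Fin (n + 1) → ℝ) i)‖ ^ 2 := hc.comp hcc
    rw [lintegral_prod _ (mor hcomp.measurable).aemeasurable]
    have e1 : ∀ (y : ℝ) (γ : Fin n → ℝ), ‖∏ i, φ ((Fin.cons y γ : Fin (n + 1) → ℝ) i)‖ ^ 2 =
        ‖φ y‖ ^ 2 * ‖∏ i : Fin n, φ (γ i)‖ ^ 2 := by
      intro y γ
      rw [Fin.prod_univ_succ, norm_mul, mul_pow]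
      simp only [Fin.cons_zero, Fin.cons_succ]
    have e2 : ∀ y : ℝ, ∫⁻ γ : Fin n → ℝ,
        ENNReal.ofReal (‖∏ i, φ ((Fin.cons y γ : Fin (n + 1) → ℝ) i)‖ ^ 2) ∂(mB n 0 U) ≤
        ENNReal.ofReal (‖φ y‖ ^ 2) * ENNReal.ofReal (V ^ n) := by
      intro y
      simp_rw [e1, ENNReal.ofReal_mul (sq_nonneg ‖φ y‖)]
      rw [lintegral_const_mul _ (mor (by fun_prop : Continuous
        fun γ : Fin n → ℝ => ‖∏ i : Fin n, φ (γ i)‖ ^ 2).measurable)]
      exact mul_le_mul' le_rfl ih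
    refine (lintegral_mono e2).trans ?_
    rw [lintegral_mul_const _ (mor (by fun_prop : Continuous fun y : ℝ => ‖φ y‖ ^ 2).measurable),
      pow_succ, ENNReal.ofReal_mul (pow_nonneg hV0 n), mul_comm]
    exact mul_le_mul' le_rfl h

/-- the coefficients -/
def bb (K V : ℝ) (n : ℕ) : ℝ := (2 ^ (n + 1) - 2) * K * V ^ (n - 1)

lemma bb_succ (K V : ℝ) (n : ℕ) :
    bb K V (n + 1) = 2 * (K * V ^ n) + 2 * (bb K V n * V) := by
  unfold bb
  cases n with
  | zero =>
    rw [show (0 + 1 - 1 : ℕ) = 0 from rfl]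
    ring
  | succ n =>
    simp only [Nat.add_sub_cancel]
    ring

lemma bb_nonneg {K V : ℝ} (hK : 0 ≤ K) (hV : 0 ≤ V) (n : ℕ) : 0 ≤ bb K V n := by
  unfold bb
  refine mul_nonneg (mul_nonneg ?_ hK) (pow_nonneg hV _)
  have : (1 : ℝ) ≤ 2 ^ n := one_le_pow₀ (by norm_num)
  rw [pow_succ]
  linarith

/-- weighted integration over `t` -/
lemma wint {X : Type} [MeasurableSpace X] {μ : Measure X} [SFinite μ] {a b C : ℝ} {G : Set ℝ}
    {v : ℝ → ℂ} (hv : Measurable v) (hG : ∀ t, t ∉ G → v t = 0) {h : ℝ → X → ℝ}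
    (hm : Measurable (Function.uncurry h))
    (hi : ∀ t ∈ G, t ∈ Icc a b → ∫⁻ x, ENNReal.ofReal (h t x) ∂μ ≤ ENNReal.ofReal C) :
    ∫⁻ x, (∫⁻ t in Icc a b, ENNReal.ofReal (‖v t‖ ^ 2 * h t x)) ∂μ ≤
      ENNReal.ofReal C * ∫⁻ t in Icc a b, ENNReal.ofReal (‖v t‖ ^ 2) := by
  have hm2 : Measurable (Function.uncurry fun (x : X) (t : ℝ) => ENNReal.ofReal (‖v t‖ ^ 2 * h t x)) := by
    refine mor (((hv.comp measurable_snd).norm.pow_const 2).mul ?_)
    exact hm.comp measurable_swap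
  rw [lintegral_lintegral_swap hm2.aemeasurable, mul_comm, ← lintegral_mul_const' _ _ ENNReal.ofReal_ne_top]
  refine lintegral_mono_ae ((ae_restrict_mem measurableSet_Icc).mono fun t ht => ?_)
  by_cases htG : t ∈ G
  · simp_rw [ENNReal.ofReal_mul (sq_nonneg ‖v t‖)]
    rw [lintegral_const_mul' _ _ ENNReal.ofReal_ne_top]
    exact mul_le_mul' le_rfl (hi t htG ht)
  · simp [hG t htG]

section

variable {a b U K W : ℝ} {G : Set ℝ} {f g : ℝ → ℂ}

lemma core (hK : 0 ≤ K) (hW : 0 ≤ W) (hf : Continuous f) (hg : Continuous g)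
    (h1 : ∀ v : ℝ → ℂ, Wb a b v →
      ∫⁻ y, ENNReal.ofReal (‖∫ t in Icc a b, v t * (f (t + y) - g (t + y))‖ ^ 2)
        ∂(volume.restrict (Icc 0 U)) ≤
      ENNReal.ofReal K * ∫⁻ t in Icc a b, ENNReal.ofReal (‖v t‖ ^ 2))
    (h2 : ∀ t ∈ G, t ∈ Icc a b → ∫⁻ y, ENNReal.ofReal (‖f (t + y)‖ ^ 2)
      ∂(volume.restrict (Icc 0 U)) ≤ ENNReal.ofReal W)
    (h3 : ∀ t ∈ G, t ∈ Icc a b → ∫⁻ y, ENNReal.ofReal (‖g (t + y)‖ ^ 2)
      ∂(volume.restrict (Icc 0 U)) ≤ ENNReal.ofReal W) :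
    ∀ (n : ℕ) (v : ℝ → ℂ), Wb a b v → (∀ t, t ∉ G → v t = 0) →
      ∫⁻ c, ENNReal.ofReal (‖∫ t in Icc a b, v t *
        (∏ j : Fin n, f (t + c j) - ∏ j, g (t + c j))‖ ^ 2) ∂(mB n 0 U) ≤
      ENNReal.ofReal (bb K W n) * ∫⁻ t in Icc a b, ENNReal.ofReal (‖v t‖ ^ 2) := by
  intro n
  induction n with
  | zero =>
    intro v _ _
    simp
  | succ n ih =>
    intro v hv hG
    have hm0 : Measurable fun c : Fin (n + 1) → ℝ => ∫ t in Icc a b, v t *
        (∏ j, f (t + c j) - ∏ j, g (t + c j)) := by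
      refine meas_int ((hv.1.comp measurable_snd).mul (Continuous.measurable ?_))
      fun_prop
    rw [lint_prod U _ (mor (hm0.norm.pow_const 2))]
    obtain ⟨S1, hS1⟩ : ∃ S1 : ℝ × (Fin n → ℝ) → ℂ, S1 = fun p => ∫ t in Icc a b,
      (v t * ∏ j, f (t + p.2 j)) * (f (t + p.1) - g (t + p.1)) := ⟨_, rfl⟩
    obtain ⟨S2, hS2⟩ : ∃ S2 : ℝ × (Fin n → ℝ) → ℂ, S2 = fun p => ∫ t in Icc a b,
      (v t * g (t + p.1)) * (∏ j, f (t + p.2 j) - ∏ j, g (t + p.2 j)) := ⟨_, rfl⟩
    have c1 : Measurable fun p => ‖S1 p‖ ^ 2 := by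
      rw [hS1]
      refine (meas_int (X := ℝ × (Fin n → ℝ)) (((hv.1.comp measurable_snd).mul
        (Continuous.measurable ?_)).mul (Continuous.measurable ?_))).norm.pow_const 2
      · fun_prop
      · fun_prop
    have c2 : Measurable fun p => ‖S2 p‖ ^ 2 := by
      rw [hS2]
      refine (meas_int (X := ℝ × (Fin n → ℝ)) (((hv.1.comp measurable_snd).mul
        (Continuous.measurable ?_)).mul (Continuous.measurable ?_))).norm.pow_const 2
      · fun_prop
      · fun_prop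
    have hle : ∀ p : ℝ × (Fin n → ℝ), ENNReal.ofReal (‖∫ t in Icc a b, v t *
        (∏ j, f (t + (Fin.cons p.1 p.2 : Fin (n + 1) → ℝ) j) -
          ∏ j, g (t + (Fin.cons p.1 p.2 : Fin (n + 1) → ℝ) j))‖ ^ 2) ≤
        2 * ENNReal.ofReal (‖S1 p‖ ^ 2) + 2 * ENNReal.ofReal (‖S2 p‖ ^ 2) := by
      intro p
      have i1 : Integrable (fun t => (v t * ∏ j, f (t + p.2 j)) * (f (t + p.1) - g (t + p.1)))
          (volume.restrict (Icc a b)) :=
        wb_int (wb_mul (wb_mul hv (by fun_prop)) (by fun_prop))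
      have i2 : Integrable (fun t => (v t * g (t + p.1)) * (∏ j, f (t + p.2 j) - ∏ j, g (t + p.2 j)))
          (volume.restrict (Icc a b)) :=
        wb_int (wb_mul (wb_mul hv (by fun_prop)) (by fun_prop))
      have e1 : ∫ t in Icc a b, v t * (∏ j, f (t + (Fin.cons p.1 p.2 : Fin (n + 1) → ℝ) j) -
          ∏ j, g (t + (Fin.cons p.1 p.2 : Fin (n + 1) → ℝ) j)) = S1 p + S2 p := by
        rw [hS1, hS2]
        simp only
        rw [← integral_add i1 i2]
        congr 1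
        funext t
        rw [Fin.prod_univ_succ, Fin.prod_univ_succ]
        simp only [Fin.cons_zero, Fin.cons_succ]
        ring
      rw [e1]
      have e2 : ‖S1 p + S2 p‖ ^ 2 ≤ 2 * ‖S1 p‖ ^ 2 + 2 * ‖S2 p‖ ^ 2 := by
        have h4 := norm_add_le (S1 p) (S2 p)
        have h5 : ‖S1 p + S2 p‖ ^ 2 ≤ (‖S1 p‖ + ‖S2 p‖) ^ 2 := by gcongr
        nlinarith [sq_nonneg (‖S1 p‖ - ‖S2 p‖)]
      refine (ENNReal.ofReal_le_ofReal e2).trans ?_
      rw [ENNReal.ofReal_add (by positivity) (by positivity), ENNReal.ofReal_mul (by norm_num),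
        ENNReal.ofReal_mul (by norm_num)]
      simp
    refine (lintegral_mono hle).trans ?_
    rw [lintegral_add_left ((mor c1).const_mul 2), lintegral_const_mul _ (mor c1),
      lintegral_const_mul _ (mor c2)]
    obtain ⟨Q, hQ⟩ : ∃ Q : ℝ≥0∞, Q = ∫⁻ t in Icc a b, ENNReal.ofReal (‖v t‖ ^ 2) := ⟨_, rfl⟩
    -- the first part
    have b1 : ∫⁻ p, ENNReal.ofReal (‖S1 p‖ ^ 2) ∂((volume.restrict (Icc 0 U)).prod (mB n 0 U)) ≤
        ENNReal.ofReal (K * W ^ n) * Q := by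
      rw [lintegral_prod_symm _ (mor c1).aemeasurable]
      have e3 : ∀ γ : Fin n → ℝ, ∫⁻ x, ENNReal.ofReal (‖S1 (x, γ)‖ ^ 2)
          ∂(volume.restrict (Icc 0 U)) ≤
          ENNReal.ofReal K * ∫⁻ t in Icc a b, ENNReal.ofReal (‖v t‖ ^ 2 * ‖∏ j, f (t + γ j)‖ ^ 2) := by
        intro γ
        have h4 := h1 (fun t => v t * ∏ j, f (t + γ j)) (wb_mul hv (by fun_prop))
        simp only [norm_mul, mul_pow] at h4
        rw [hS1]
        exact h4
      refine (lintegral_mono e3).trans ?_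
      rw [lintegral_const_mul' _ _ ENNReal.ofReal_ne_top, ENNReal.ofReal_mul hK, mul_assoc, hQ]
      refine mul_le_mul' le_rfl ?_
      have cm : Measurable (Function.uncurry fun (t : ℝ) (γ : Fin n → ℝ) => ‖∏ j, f (t + γ j)‖ ^ 2) := by
        refine Continuous.measurable ?_
        fun_prop
      have cp : ∀ t ∈ G, t ∈ Icc a b → ∫⁻ γ : Fin n → ℝ, ENNReal.ofReal (‖∏ j, f (t + γ j)‖ ^ 2)
          ∂(mB n 0 U) ≤ ENNReal.ofReal (W ^ n) := fun t ht ht' =>
        pmom hW (φ := fun y => f (t + y)) (by fun_prop) (h2 t ht ht') n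
      exact wint (X := Fin n → ℝ) (μ := mB n 0 U) (a := a) (b := b) (C := W ^ n) hv.1 hG
        (h := fun (t : ℝ) (γ : Fin n → ℝ) => ‖∏ j, f (t + γ j)‖ ^ 2) cm cp
    -- the second part
    have b2 : ∫⁻ p, ENNReal.ofReal (‖S2 p‖ ^ 2) ∂((volume.restrict (Icc 0 U)).prod (mB n 0 U)) ≤
        ENNReal.ofReal (bb K W n * W) * Q := by
      rw [lintegral_prod _ (mor c2).aemeasurable]
      have e3 : ∀ x : ℝ, ∫⁻ γ, ENNReal.ofReal (‖S2 (x, γ)‖ ^ 2) ∂(mB n 0 U) ≤
          ENNReal.ofReal (bb K W n) *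
            ∫⁻ t in Icc a b, ENNReal.ofReal (‖v t‖ ^ 2 * ‖g (t + x)‖ ^ 2) := by
        intro x
        have h4 := ih (fun t => v t * g (t + x)) (wb_mul hv (by fun_prop))
          (fun t ht => by rw [hG t ht, zero_mul])
        simp only [norm_mul, mul_pow] at h4
        rw [hS2]
        exact h4
      refine (lintegral_mono e3).trans ?_
      rw [lintegral_const_mul' _ _ ENNReal.ofReal_ne_top, ENNReal.ofReal_mul (bb_nonneg hK hW n),
        mul_assoc, hQ]
      refine mul_le_mul' le_rfl ?_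
      have cm : Measurable (Function.uncurry fun (t : ℝ) (x : ℝ) => ‖g (t + x)‖ ^ 2) := by
        refine Continuous.measurable ?_
        fun_prop
      exact wint (X := ℝ) (μ := volume.restrict (Icc 0 U)) (a := a) (b := b) (C := W) hv.1 hG
        (h := fun (t : ℝ) (x : ℝ) => ‖g (t + x)‖ ^ 2) cm h3
    calc 2 * ∫⁻ p, ENNReal.ofReal (‖S1 p‖ ^ 2) ∂((volume.restrict (Icc 0 U)).prod (mB n 0 U)) +
        2 * ∫⁻ p, ENNReal.ofReal (‖S2 p‖ ^ 2) ∂((volume.restrict (Icc 0 U)).prod (mB n 0 U))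
        ≤ 2 * (ENNReal.ofReal (K * W ^ n) * Q) + 2 * (ENNReal.ofReal (bb K W n * W) * Q) :=
          add_le_add (mul_le_mul' le_rfl b1) (mul_le_mul' le_rfl b2)
      _ = ENNReal.ofReal (2 * (K * W ^ n) + 2 * (bb K W n * W)) * Q := by
          have t1 : 0 ≤ K * W ^ n := mul_nonneg hK (pow_nonneg hW n)
          have t2 : 0 ≤ bb K W n * W := mul_nonneg (bb_nonneg hK hW n) hW
          rw [ENNReal.ofReal_add (mul_nonneg (by norm_num) t1) (mul_nonneg (by norm_num) t2),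
            ENNReal.ofReal_mul (by norm_num : (0 : ℝ) ≤ 2),
            ENNReal.ofReal_mul (by norm_num : (0 : ℝ) ≤ 2), add_mul, mul_assoc, mul_assoc]
          simp
      _ = ENNReal.ofReal (bb K W (n + 1)) * ∫⁻ t in Icc a b, ENNReal.ofReal (‖v t‖ ^ 2) := by
          rw [bb_succ, hQ]

/-- bounded measurable functions of the shift -/
lemma hyp (hab : a ≤ b) (hU : 0 < U) (hf : Continuous f) (hg : Continuous g) (hK : 0 ≤ K)
    (h1 : ∀ F : ℝ → ℂ, Wb a b F → ∫ c in (0 : ℝ)..U, ‖∫ t in a..b, F t * (f (t + c) - g (t + c))‖ ^ 2 ≤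
      K * ∫ t in a..b, ‖F t‖ ^ 2) (v : ℝ → ℂ) (hv : Wb a b v) :
    ∫⁻ y, ENNReal.ofReal (‖∫ t in Icc a b, v t * (f (t + y) - g (t + y))‖ ^ 2)
        ∂(volume.restrict (Icc 0 U)) ≤
      ENNReal.ofReal K * ∫⁻ t in Icc a b, ENNReal.ofReal (‖v t‖ ^ 2) := by
  have e0 : ∀ y, ∫ t in Icc a b, v t * (f (t + y) - g (t + y)) =
      ∫ t in a..b, v t * (f (t + y) - g (t + y)) := fun y => by
    rw [intervalIntegral.integral_of_le hab, ← integral_Icc_eq_integral_Ioc]
  have hm : Measurable fun y : ℝ => ∫ t in Icc a b, v t * (f (t + y) - g (t + y)) := by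
    refine meas_int ((hv.1.comp measurable_snd).mul (Continuous.measurable ?_))
    fun_prop
  obtain ⟨C, hC⟩ := isCompact_Icc.exists_bound_of_continuousOn (s := Icc a (b + U))
    (f := fun x => f x - g x) (hf.sub hg).continuousOn
  obtain ⟨M, hM⟩ := hv.2
  have hM0 : 0 ≤ M := (norm_nonneg _).trans (hM a ⟨le_rfl, hab⟩)
  have hbd : ∀ y ∈ Icc (0 : ℝ) U, ‖∫ t in Icc a b, v t * (f (t + y) - g (t + y))‖ ≤
      M * C * (b - a) := by
    intro y hy
    have h4 : ∀ t ∈ Icc a b, ‖v t * (f (t + y) - g (t + y))‖ ≤ M * C := by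
      intro t ht
      rw [norm_mul]
      exact mul_le_mul (hM t ht) (hC (t + y) ⟨by linarith [ht.1, hy.1], by linarith [ht.2, hy.2]⟩)
        (norm_nonneg _) hM0
    have h5 := norm_setIntegral_le_of_norm_le_const (μ := volume) (s := Icc a b)
      (by rw [Real.volume_Icc]; exact ENNReal.ofReal_lt_top) h4
    rw [measureReal_def, Real.volume_Icc, ENNReal.toReal_ofReal (by linarith)] at h5
    exact h5
  have hint : IntegrableOn (fun y : ℝ => ‖∫ t in Icc a b, v t * (f (t + y) - g (t + y))‖ ^ 2)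
      (Icc 0 U) := by
    refine Integrable.mono' (g := fun _ => (M * C * (b - a)) ^ 2) (integrable_const _)
      (hm.norm.pow_const 2).aestronglyMeasurable ?_
    refine (ae_restrict_mem measurableSet_Icc).mono fun y hy => ?_
    rw [Real.norm_of_nonneg (by positivity)]
    exact pow_le_pow_left₀ (norm_nonneg _) (hbd y hy) 2
  rw [lint1 hU.le hint (fun y => sq_nonneg _), lint1 hab (wb_int2 hv) (fun y => sq_nonneg _),
    ← ENNReal.ofReal_mul hK]
  apply ENNReal.ofReal_le_ofReal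
  simp_rw [e0]
  exact h1 v hv

end

end Telcaux

open Telcaux in
theorem t_TELC : S_TELC := by
  intro n a b U K W G w f g hab hU hK hW hG hw hf hg h1 h2 h3
  have hv : Wb a b (G.indicator w) := by
    obtain ⟨hm, M, hM⟩ := hw
    refine ⟨hm.indicator hG, M, fun t ht => ?_⟩
    by_cases htG : t ∈ G
    · rw [indicator_of_mem htG]
      exact hM t ht
    · rw [indicator_of_notMem htG, norm_zero]
      exact (norm_nonneg _).trans (hM t ht)
  have hv0 : ∀ t, t ∉ G → G.indicator w t = 0 := fun t ht => indicator_of_notMem ht w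
  have key := core (a := a) (b := b) (U := U) (G := G) hK hW hf hg (hyp hab hU hf hg hK h1)
    (fun t ht ht' => by
      have cf : Continuous fun y => ‖f (t + y)‖ ^ 2 := by fun_prop
      rw [lint1 hU.le cf.continuousOn.integrableOn_Icc fun y => sq_nonneg _]
      exact ENNReal.ofReal_le_ofReal (h2 t ht ht'))
    (fun t ht ht' => by
      have cg : Continuous fun y => ‖g (t + y)‖ ^ 2 := by fun_prop
      rw [lint1 hU.le cg.continuousOn.integrableOn_Icc fun y => sq_nonneg _]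
      exact ENNReal.ofReal_le_ofReal (h3 t ht ht')) n (G.indicator w) hv hv0
  have e1 : ∀ c : Fin n → ℝ, ∫ t in G ∩ Icc a b, w t * (∏ j, f (t + c j) - ∏ j, g (t + c j)) =
      ∫ t in Icc a b, G.indicator w t * (∏ j, f (t + c j) - ∏ j, g (t + c j)) := by
    intro c
    rw [inter_comm, ← setIntegral_indicator hG]
    refine integral_congr_ae (Filter.Eventually.of_forall fun t => ?_)
    simp only
    rw [indicator_mul_left]
  have e2 : ∫ t in G ∩ Icc a b, ‖w t‖ ^ 2 = ∫ t in Icc a b, ‖G.indicator w t‖ ^ 2 := by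
    rw [inter_comm, ← setIntegral_indicator hG]
    refine integral_congr_ae (Filter.Eventually.of_forall fun t => ?_)
    simp only
    by_cases htG : t ∈ G
    · rw [indicator_of_mem htG, indicator_of_mem htG]
    · rw [indicator_of_notMem htG, indicator_of_notMem htG, norm_zero]
      norm_num
  simp_rw [e1]
  rw [e2]
  obtain ⟨I, hI⟩ : ∃ I : ℝ, I = ∫ t in Icc a b, ‖G.indicator w t‖ ^ 2 := ⟨_, rfl⟩
  have hI0 : 0 ≤ I := by
    rw [hI]
    exact integral_nonneg fun t => sq_nonneg _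
  have e3 : ∫⁻ t in Icc a b, ENNReal.ofReal (‖G.indicator w t‖ ^ 2) = ENNReal.ofReal I := by
    rw [hI, ofReal_integral_eq_lintegral_ofReal (wb_int2 hv) (Filter.Eventually.of_forall
      fun t => sq_nonneg _)]
  rw [e3, ← ENNReal.ofReal_mul (bb_nonneg hK hW n)] at key
  have hm0 : Measurable fun c : Fin n → ℝ => ∫ t in Icc a b, G.indicator w t *
      (∏ j, f (t + c j) - ∏ j, g (t + c j)) := by
    refine meas_int ((hv.1.comp measurable_snd).mul (Continuous.measurable ?_))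
    fun_prop
  rw [integral_eq_lintegral_of_nonneg_ae (Filter.Eventually.of_forall fun c => sq_nonneg _)
    (hm0.norm.pow_const 2).aestronglyMeasurable, ← hI]
  have hfin : 0 ≤ bb K W n * I := mul_nonneg (bb_nonneg hK hW n) hI0
  refine (ENNReal.toReal_mono ENNReal.ofReal_ne_top key).trans ?_
  rw [ENNReal.toReal_ofReal hfin]
  refine mul_le_mul_of_nonneg_right ?_ hI0
  unfold bb
  refine mul_le_mul_of_nonneg_right (mul_le_mul_of_nonneg_right ?_ hK) (pow_nonneg hW _)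
  have e : (4 : ℝ) ^ n = (2 ^ n) ^ 2 := by
    rw [← pow_mul, mul_comm, pow_mul]
    norm_num
  rw [e, pow_succ]
  nlinarith [sq_nonneg ((2 : ℝ) ^ n - 1)]

end

end Pool.Agent.N879.PZ
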